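import Pool.Agent.ZPU.StmtsB

/-!
# Squad ZPU, row C0 (helper80)
-/

set_option autoImplicit false

namespace Pool.Agent.ZPU.H80

open Polynomial Pool.Agent.ZPT Pool.Agent.ZP3

noncomputable section

/-- Row C0. -/
theorem c0 (hW : WZRStmt) (hT : TAMStmt) : C0Stmt := by
  intro p hp K _ _ _ _ hE D A₁ B₁ A₂ B₂ hD h1 h2 h3 h4 hI
  obtain ⟨M, hM, h⟩ := hT p hp K hE A₁ B₁ A₂ B₂ hI
  refine ⟨M, hM, fun t t₀ ζ₁ ζ₂ ht htt hz1 hz2 a1 b1 a2 b2 e1 e2 => ?_⟩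
  have hp1 : (1 : ℝ) ≤ p := by exact_mod_cast hp.one_lt.le
  have hle : ((p : ℝ)⁻¹) ^ 2 ≤ (p : ℝ)⁻¹ := by
    have h5 : (0 : ℝ) ≤ (p : ℝ)⁻¹ := inv_nonneg.2 (by linarith)
    have h6 : (p : ℝ)⁻¹ ≤ 1 := inv_le_one_of_one_le₀ hp1
    rw [pow_two]
    calc (p : ℝ)⁻¹ * (p : ℝ)⁻¹ ≤ 1 * (p : ℝ)⁻¹ := mul_le_mul_of_nonneg_right h6 h5
      _ = (p : ℝ)⁻¹ := one_mul _
  obtain ⟨t1, t2⟩ := hW p hp K hE D A₁ B₁ A₂ B₂ hD h1 h2 h3 h4 hI t t₀ ζ₁ ζ₂ ht htt hz1 hz2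
    a1 b1 a2 b2 (e1.trans hle) (e2.trans hle)
  exact h t t₀ ζ₁ ζ₂ ht htt t1 t2 b1 e1 e2

end

end Pool.Agent.ZPU.H80
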