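import Pool.Agent.ZPU.StmtsB

/-!
# Squad ZPU, row NID (helper80)
-/

set_option autoImplicit false

namespace Pool.Agent.ZPU.H80

open Polynomial Pool.Agent.ZPT Pool.Agent.ZP3

noncomputable section

theorem norm_aeval_le {K : Type} [NormedField K] [IsUltrametricDist K] (P : ℤ[X]) (s : K)
    (hs : ‖s‖ ≤ 1) : ‖aeval s P‖ ≤ 1 := by
  rw [aeval_eq_sum_range]
  refine IsUltrametricDist.norm_sum_le_of_forall_le_of_nonneg zero_le_one fun i _ => ?_
  rw [zsmul_eq_mul, norm_mul, norm_pow]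
  have h1 : ‖((P.coeff i : ℤ) : K)‖ ≤ 1 := IsUltrametricDist.norm_intCast_le_one K _
  have h2 : ‖s‖ ^ i ≤ 1 := pow_le_one₀ (norm_nonneg _) hs
  calc ‖((P.coeff i : ℤ) : K)‖ * ‖s‖ ^ i ≤ 1 * 1 :=
        mul_le_mul h1 h2 (pow_nonneg (norm_nonneg _) _) zero_le_one
    _ = 1 := one_mul 1

theorem map_aeval' {K : Type} [Field K] (ι : Qb →+* K) (P : ℤ[X]) (s : Qb) :
    ι (aeval s P) = aeval (ι s) P := by
  rw [aeval_def, aeval_def, hom_eval₂]
  congr 1
  exact RingHom.ext_int _ _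

/-- One chart. -/
theorem chart (hSML : SMLStmt) (p : ℕ) (hp : p.Prime) (K : Type) [NormedField K] [CharZero K]
    [IsUltrametricDist K] (hE : Ext p K) (ι : Qb →+* K) (l : ℚ) (hl : 1 < padicNorm p l)
    (Fa Ga Fb Gb : ℤ[X]) (h1 : IsCoprime (bar p Fb) (bar p Fa)) (h2 : IsCoprime (bar p Fb) (bar p Ga))
    (h3 : IsCoprime (bar p Fb) (bar p Gb)) (s : Qb) (hs : ‖ι s‖ ≤ 1)
    (hb : ‖ι (aeval s Fb)‖ < 1) (hb2 : ((padicNorm p l : ℚ) : ℝ) * ‖ι (aeval s Fb)‖ ≤ 1) :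
    aeval s Ga ≠ 0 ∧ aeval s Gb ≠ 0 ∧ 1 < ‖ι ((l : Qb) * (aeval s Fa / aeval s Ga))‖ ∧
      ‖ι ((l : Qb) * (aeval s Fb / aeval s Gb))‖ ≤ 1 := by
  have hunit : ∀ A : ℤ[X], IsCoprime (bar p Fb) (bar p A) → ‖ι (aeval s A)‖ = 1 := by
    intro A hA
    rcases hSML p hp K hE Fb A hA (ι s) hs with h | h
    · rw [map_aeval'] at hb
      exact absurd h (ne_of_lt hb)
    · rw [map_aeval']
      exact h
  have hne : ∀ A : ℤ[X], ‖ι (aeval s A)‖ = 1 → aeval s A ≠ 0 := by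
    intro A hA h0
    rw [h0, map_zero, norm_zero] at hA
    exact zero_ne_one hA
  have hlK : ‖ι (l : Qb)‖ = ((padicNorm p l : ℚ) : ℝ) := by
    rw [map_ratCast]
    exact hE l
  have hl' : (1 : ℝ) < ((padicNorm p l : ℚ) : ℝ) := by exact_mod_cast hl
  refine ⟨hne _ (hunit _ h2), hne _ (hunit _ h3), ?_, ?_⟩
  · rw [map_mul, map_div₀, norm_mul, norm_div, hunit _ h1, hunit _ h2, hlK]
    simpa using hl'
  · rw [map_mul, map_div₀, norm_mul, norm_div, hunit _ h3, hlK, div_one]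
    exact hb2

/-- Row NID. -/
theorem nid (hSML : SMLStmt) (hREV : REVStmt) : NIDStmt := by
  intro p hp K _ _ _ hE ι d n D F G hyp l hl a b hab
  obtain ⟨hG, hG', hrev⟩ := hREV p hp d n D F G hyp
  have hl' : (1 : ℝ) < ((padicNorm p l : ℚ) : ℝ) := by exact_mod_cast hl
  -- the chart at infinity
  have hinf : ∀ t : Qb, t ≠ 0 → ‖ι t⁻¹‖ ≤ 1 →
      ‖ι (aeval t⁻¹ (reflect (D b) (F b)))‖ < 1 →
      ((padicNorm p l : ℚ) : ℝ) * ‖ι (aeval t⁻¹ (reflect (D b) (F b)))‖ ≤ 1 →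
      ∃ t : Qb, aeval t (G a) ≠ 0 ∧ aeval t (G b) ≠ 0 ∧
        1 < ‖ι ((l : Qb) * aeval t (F a) / aeval t (G a))‖ ∧
        ‖ι ((l : Qb) * aeval t (F b) / aeval t (G b))‖ ≤ 1 := by
    intro t ht h1 h2 h3
    obtain ⟨c1, c2, c3, c4⟩ := chart hSML p hp K hE ι l hl (reflect (D a) (F a))
      (reflect (D a) (G a)) (reflect (D b) (F b)) (reflect (D b) (G b))
      (hG'.FF b a hab.symm) (hG'.FG b a) (hG'.FG b b) t⁻¹ h1 h2 h3
    have hr := hrev Qb t ht
    have hDa : t ^ D a ≠ 0 := pow_ne_zero _ ht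
    have hDb : t ^ D b ≠ 0 := pow_ne_zero _ ht
    refine ⟨t, ?_, ?_, ?_, ?_⟩
    · rw [(hr a).2]
      exact mul_ne_zero hDa c1
    · rw [(hr b).2]
      exact mul_ne_zero hDb c2
    · rw [(hr a).2, (hr a).1, mul_div_assoc, mul_div_mul_left _ _ hDa]
      exact c3
    · rw [(hr b).2, (hr b).1, mul_div_assoc, mul_div_mul_left _ _ hDb]
      exact c4
  rcases (hyp.dF b).lt_or_eq with hdeg | hdeg
  · -- small degree: `t = p ^ (-j)`
    have hp1 : (1 : ℝ) < p := by exact_mod_cast hp.one_lt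
    have hp0 : (0 : ℝ) < p := by linarith
    obtain ⟨j, hj⟩ := pow_unbounded_of_one_lt ((padicNorm p l : ℚ) : ℝ) hp1
    have hnp : ‖ι ((p : Qb) ^ j)‖ = ((p : ℝ) ^ j)⁻¹ := by
      rw [map_pow, map_natCast, norm_pow]
      have h1 : ‖((p : ℕ) : K)‖ = (p : ℝ)⁻¹ := by
        have h2 := hE (p : ℚ)
        rw [Rat.cast_natCast] at h2
        rw [h2]
        have h3 : padicNorm p (p : ℚ) = (p : ℚ)⁻¹ := padicNorm.padicNorm_p hp.one_lt
        rw [h3]
        push_cast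
        rfl
      rw [h1, inv_pow]
    have hpj : (0 : ℝ) < (p : ℝ) ^ j := pow_pos hp0 j
    have hpq : (p : Qb) ^ j ≠ 0 := by
      apply pow_ne_zero
      exact_mod_cast hp.ne_zero
    have hle : ‖ι (((p : Qb) ^ j)⁻¹)⁻¹‖ = ((p : ℝ) ^ j)⁻¹ := by rw [inv_inv, hnp]
    have h1 : ((p : ℝ) ^ j)⁻¹ * ((padicNorm p l : ℚ) : ℝ) < 1 := by
      rw [inv_mul_lt_iff₀ hpj, mul_one]
      exact hj
    have h0 : ((p : ℝ) ^ j)⁻¹ < 1 := by
      have h2 : (0 : ℝ) < ((p : ℝ) ^ j)⁻¹ := inv_pos.2 hpj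
      nlinarith
    have hval : ‖ι (aeval (((p : Qb) ^ j)⁻¹)⁻¹ (reflect (D b) (F b)))‖ ≤ ((p : ℝ) ^ j)⁻¹ := by
      have hc : (reflect (D b) (F b)).coeff 0 = 0 := by
        rw [coeff_reflect, revAt_le (Nat.zero_le _), Nat.sub_zero]
        exact coeff_eq_zero_of_natDegree_lt hdeg
      have hX : reflect (D b) (F b) = (reflect (D b) (F b)).divX * X := by
        have h := (reflect (D b) (F b)).divX_mul_X_add
        rw [hc, C_0, add_zero] at h
        exact h.symm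
      rw [hX, map_aeval', map_mul, aeval_X, norm_mul, hle]
      have h3 := norm_aeval_le (reflect (D b) (F b)).divX (ι (((p : Qb) ^ j)⁻¹)⁻¹)
        (by rw [hle]; exact h0.le)
      calc _ ≤ 1 * ((p : ℝ) ^ j)⁻¹ := mul_le_mul_of_nonneg_right h3 (inv_pos.2 hpj).le
        _ = _ := one_mul _
    refine hinf ((p : Qb) ^ j)⁻¹ (inv_ne_zero hpq) (by rw [hle]; exact h0.le)
      (hval.trans_lt h0) ?_
    have h4 : ((padicNorm p l : ℚ) : ℝ) * ‖ι (aeval (((p : Qb) ^ j)⁻¹)⁻¹ (reflect (D b) (F b)))‖ ≤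
        ((padicNorm p l : ℚ) : ℝ) * ((p : ℝ) ^ j)⁻¹ :=
      mul_le_mul_of_nonneg_left hval (by linarith)
    linarith
  · -- a root
    have hroot : ∃ t : Qb, aeval t (F b) = 0 := by
      have hdeg' : ((F b).map (Int.castRingHom Qb)).degree ≠ 0 := by
        have hF0 : F b ≠ 0 := by
          intro h0
          have := hyp.D1 b
          rw [h0, natDegree_zero] at hdeg
          omega
        rw [degree_map_eq_of_injective (RingHom.injective_int _), degree_eq_natDegree hF0, hdeg]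
        have := hyp.D1 b
        intro h
        have h5 : D b = 0 := by exact_mod_cast h
        omega
      have hcl : IsAlgClosed Qb :=
        (algebraicClosure.isAlgClosure ℚ ℂ).isAlgClosed
      obtain ⟨t, ht⟩ := IsAlgClosed.exists_root _ hdeg'
      refine ⟨t, ?_⟩
      rw [IsRoot.def, eval_map] at ht
      exact ht
    obtain ⟨t, ht⟩ := hroot
    by_cases h1 : ‖ι t‖ ≤ 1
    · obtain ⟨c1, c2, c3, c4⟩ := chart hSML p hp K hE ι l hl (F a) (G a) (F b) (G b)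
        (hG.FF b a hab.symm) (hG.FG b a) (hG.FG b b) t h1 (by rw [ht, map_zero, norm_zero]; exact one_pos)
        (by rw [ht, map_zero, norm_zero, mul_zero]; exact zero_le_one)
      exact ⟨t, c1, c2, by rw [mul_div_assoc]; exact c3, by rw [mul_div_assoc]; exact c4⟩
    · have h1' : 1 < ‖ι t‖ := not_le.1 h1
      have ht0 : t ≠ 0 := by
        intro h
        rw [h, map_zero, norm_zero] at h1'
        linarith
      have h2 : ‖ι t⁻¹‖ ≤ 1 := by
        rw [map_inv₀, norm_inv]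
        exact inv_le_one_of_one_le₀ h1'.le
      have h3 : aeval t⁻¹ (reflect (D b) (F b)) = 0 := by
        have h4 := ((hrev Qb t ht0) b).1
        rw [ht] at h4
        rcases mul_eq_zero.1 h4.symm with h5 | h5
        · exact absurd h5 (pow_ne_zero _ ht0)
        · exact h5
      exact hinf t ht0 h2 (by rw [h3, map_zero, norm_zero]; exact one_pos)
        (by rw [h3, map_zero, norm_zero, mul_zero]; exact zero_le_one)

end

end Pool.Agent.ZPU.H80
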